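import Mathlib

set_option autoImplicit false

namespace Pool.Agent.Results.MP_c4712b_ag.NotQuasihomogeneous3

open MvPolynomial

/-- `a` is a singular point of the hypersurface `p = 0`. -/
def IsSingularPt {n : ℕ} (p : MvPolynomial (Fin n) ℂ) (a : Fin n → ℂ) : Prop :=
  eval a p = 0 ∧ ∀ i : Fin n, eval a (pderiv i p) = 0

/-- `a` is an isolated singular point of the hypersurface `p = 0`: it is singular and some
Euclidean neighbourhood of it contains no other singular point. -/
def IsIsolatedSingularPt {n : ℕ} (p : MvPolynomial (Fin n) ℂ) (a : Fin n → ℂ) : Prop :=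
  IsSingularPt p a ∧ ∃ U ∈ nhds a, ∀ b ∈ U, b ≠ a → ¬ IsSingularPt p b

/-- `q` is quasihomogeneous: there are positive integers `w i` and an integer `d` with
`q (t ^ w 1 * x 1, ..., t ^ w n * x n) = t ^ d * q x` for all nonzero `t` and all `x`. -/
def IsQuasihomogeneous {n : ℕ} (q : MvPolynomial (Fin n) ℂ) : Prop :=
  ∃ w : Fin n → ℕ, (∀ i, 0 < w i) ∧ ∃ d : ℤ, ∀ t : ℂ, t ≠ 0 → ∀ x : Fin n → ℂ,
    eval (fun i => t ^ (w i) * x i) q = t ^ d * eval x q

noncomputable section

variable {n : ℕ}

/-- chain rule -/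
lemma pderiv_aeval (F : Fin n → MvPolynomial (Fin n) ℂ) (p : MvPolynomial (Fin n) ℂ) (i : Fin n) :
    pderiv i (aeval F p) = ∑ j, aeval F (pderiv j p) * pderiv i (F j) := by
  induction p using MvPolynomial.induction_on with
  | C a => simp
  | add p q hp hq =>
    simp only [map_add, hp, hq, add_mul, Finset.sum_add_distrib]
  | mul_X p k hp =>
    simp only [map_mul, aeval_X, Derivation.leibniz, smul_eq_mul, map_add, hp, add_mul,
      Finset.sum_add_distrib, Finset.mul_sum]
    congr 1
    · have h : ∀ j : Fin n, aeval F p * aeval F (pderiv j (X k : MvPolynomial (Fin n) ℂ)) *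
          pderiv i (F j) = if j = k then aeval F p * pderiv i (F k) else 0 := by
        intro j
        by_cases hjk : j = k
        · subst hjk; simp
        · rw [pderiv_X_of_ne (Ne.symm hjk)]; simp [hjk]
      rw [Finset.sum_congr rfl (fun j _ => h j)]
      simp
    · apply Finset.sum_congr rfl
      intro j _
      ring

lemma eval_aeval (x : Fin n → ℂ) (F : Fin n → MvPolynomial (Fin n) ℂ) (g : MvPolynomial (Fin n) ℂ) :
    eval x (aeval F g) = eval (fun i => eval x (F i)) g := by
  induction g using MvPolynomial.induction_on with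
  | C a => simp
  | add p q hp hq => simp only [map_add, hp, hq]
  | mul_X p i hp => simp only [map_mul, hp, aeval_X, eval_X]

/-- Singular points pull back under polynomial maps. -/
lemma sing_pull (F : Fin n → MvPolynomial (Fin n) ℂ) (p : MvPolynomial (Fin n) ℂ) (a : Fin n → ℂ)
    (h : IsSingularPt p (fun i => eval a (F i))) : IsSingularPt (aeval F p) a := by
  refine ⟨by rw [eval_aeval]; exact h.1, fun i => ?_⟩
  rw [pderiv_aeval, map_sum]
  apply Finset.sum_eq_zero
  intro j _
  rw [map_mul, eval_aeval, h.2 j, zero_mul]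

lemma eq_aeval (Φ : MvPolynomial (Fin n) ℂ ≃ₐ[ℂ] MvPolynomial (Fin n) ℂ) (p : MvPolynomial (Fin n) ℂ) :
    Φ p = aeval (fun i => Φ (X i)) p := by
  have h : (Φ : MvPolynomial (Fin n) ℂ →ₐ[ℂ] MvPolynomial (Fin n) ℂ) = aeval (fun i => Φ (X i)) := by
    apply MvPolynomial.algHom_ext
    intro i
    simp
  exact DFunLike.congr_fun h p

/-- the map of points given by an automorphism -/
def pts (Φ : MvPolynomial (Fin n) ℂ ≃ₐ[ℂ] MvPolynomial (Fin n) ℂ) (a : Fin n → ℂ) : Fin n → ℂ :=
  fun i => eval a (Φ (X i))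

lemma pts_symm (Φ : MvPolynomial (Fin n) ℂ ≃ₐ[ℂ] MvPolynomial (Fin n) ℂ) (a : Fin n → ℂ) :
    pts Φ (pts Φ.symm a) = a := by
  funext i
  unfold pts
  rw [← eval_aeval, ← eq_aeval Φ.symm, AlgEquiv.symm_apply_apply, eval_X]

lemma sing_iff (Φ : MvPolynomial (Fin n) ℂ ≃ₐ[ℂ] MvPolynomial (Fin n) ℂ) (p : MvPolynomial (Fin n) ℂ)
    (a : Fin n → ℂ) : IsSingularPt (Φ p) a ↔ IsSingularPt p (pts Φ a) := by
  constructor
  · intro h
    have h1 : IsSingularPt (Φ p) (pts Φ.symm (pts Φ a)) := by
      have : pts Φ.symm (pts Φ a) = a := pts_symm Φ.symm a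
      rw [this]; exact h
    have h2 := sing_pull _ _ _ h1
    rw [← eq_aeval Φ.symm, AlgEquiv.symm_apply_apply] at h2
    exact h2
  · intro h
    rw [eq_aeval Φ]
    exact sing_pull _ _ _ h

/-- A quasihomogeneous polynomial with a nonzero singular point has infinitely many. -/
lemma qh_sing {q : MvPolynomial (Fin n) ℂ} (hq : IsQuasihomogeneous q) (a : Fin n → ℂ) (ha : a ≠ 0)
    (hs : IsSingularPt q a) : Set.Infinite {b : Fin n → ℂ | IsSingularPt q b} := by
  obtain ⟨w, hw, d, h⟩ := hq
  obtain ⟨k, hk⟩ : ∃ k, a k ≠ 0 := by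
    by_contra hcon
    push Not at hcon
    exact ha (funext hcon)
  -- scaled points are singular
  have hsc : ∀ t : ℂ, t ≠ 0 → IsSingularPt q (fun i => t ^ (w i) * a i) := by
    intro t ht
    have hpoly : aeval (fun i => C (t ^ (w i)) * X i) q = C (t ^ d) * q := by
      apply MvPolynomial.funext
      intro x
      rw [eval_aeval, map_mul, eval_C, ← h t ht x]
      congr 2
      funext i
      simp
    refine ⟨by rw [h t ht, hs.1, mul_zero], fun i => ?_⟩
    have h1 := congrArg (fun g => eval a (pderiv i g)) hpoly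
    simp only [pderiv_aeval, map_sum, map_mul, Derivation.leibniz, smul_eq_mul, pderiv_C, mul_zero,
      add_zero, eval_aeval, eval_C, eval_X, hs.2 i] at h1
    rw [Finset.sum_eq_single i] at h1
    · simp only [pderiv_X_self, map_one, mul_one] at h1
      have hne : (t ^ (w i) : ℂ) ≠ 0 := pow_ne_zero _ ht
      simpa [hne, hs.2 i] using h1
    · intro j _ hji
      rw [pderiv_X_of_ne hji]
      simp
    · intro hi; exact absurd (Finset.mem_univ i) hi
  -- the orbit is infinite
  have hinj : Set.InjOn (fun m : ℕ => (fun i => ((2 : ℂ) ^ m) ^ (w i) * a i)) Set.univ := by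
    intro m _ m' _ hmm
    have h1 := congrFun hmm k
    simp only at h1
    have h2 := mul_right_cancel₀ hk h1
    rw [← pow_mul, ← pow_mul] at h2
    have h3 : (2 : ℕ) ^ (m * w k) = 2 ^ (m' * w k) := by exact_mod_cast h2
    have h4 := Nat.pow_right_injective le_rfl h3
    exact Nat.eq_of_mul_eq_mul_right (hw k) h4
  have hinf := (Set.infinite_univ (α := ℕ)).image hinj
  apply hinf.mono
  rintro _ ⟨m, -, rfl⟩
  exact hsc _ (pow_ne_zero m two_ne_zero)

/-! ### The example -/

/-- The polynomial `x ^ 2 - y * (y - 1) * z`, with `x = X 0`, `y = X 1`, `z = X 2`. -/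
def P : MvPolynomial (Fin 3) ℂ := X 0 ^ 2 - X 1 * (X 1 - 1) * X 2

lemma eval_P (x : Fin 3 → ℂ) :
    eval x P = x 0 ^ 2 - x 1 * (x 1 - 1) * x 2 := by
  simp [P]

lemma d01 : pderiv (0 : Fin 3) (X 1 : MvPolynomial (Fin 3) ℂ) = 0 := pderiv_X_of_ne (by decide)
lemma d02 : pderiv (0 : Fin 3) (X 2 : MvPolynomial (Fin 3) ℂ) = 0 := pderiv_X_of_ne (by decide)
lemma d10 : pderiv (1 : Fin 3) (X 0 : MvPolynomial (Fin 3) ℂ) = 0 := pderiv_X_of_ne (by decide)
lemma d12 : pderiv (1 : Fin 3) (X 2 : MvPolynomial (Fin 3) ℂ) = 0 := pderiv_X_of_ne (by decide)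
lemma d20 : pderiv (2 : Fin 3) (X 0 : MvPolynomial (Fin 3) ℂ) = 0 := pderiv_X_of_ne (by decide)
lemma d21 : pderiv (2 : Fin 3) (X 1 : MvPolynomial (Fin 3) ℂ) = 0 := pderiv_X_of_ne (by decide)

lemma eval_d0 (x : Fin 3 → ℂ) : eval x (pderiv 0 P) = 2 * x 0 := by
  simp only [P, map_sub, Derivation.leibniz, Derivation.leibniz_pow, d01, d02, pderiv_X_self,
    smul_eq_mul, pderiv_one]
  simp

lemma eval_d1 (x : Fin 3 → ℂ) : eval x (pderiv 1 P) = -(2 * x 1 - 1) * x 2 := by
  simp only [P, map_sub, Derivation.leibniz, Derivation.leibniz_pow, d10, d12, pderiv_X_self,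
    smul_eq_mul, pderiv_one]
  simp
  ring

lemma eval_d2 (x : Fin 3 → ℂ) : eval x (pderiv 2 P) = -(x 1 * (x 1 - 1)) := by
  simp only [P, map_sub, Derivation.leibniz, Derivation.leibniz_pow, d20, d21, pderiv_X_self,
    smul_eq_mul, pderiv_one]
  simp

/-- the second singular point -/
def e : Fin 3 → ℂ := ![0, 1, 0]

lemma sing_P (a : Fin 3 → ℂ) : IsSingularPt P a ↔ a = 0 ∨ a = e := by
  constructor
  · rintro ⟨-, h⟩
    have d0 := h 0
    rw [eval_d0] at d0
    have d1 := h 1
    rw [eval_d1] at d1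
    have d2 := h 2
    rw [eval_d2] at d2
    have a0 : a 0 = 0 := by simpa using d0
    rcases mul_eq_zero.mp (neg_eq_zero.mp d2) with h1 | h1
    · left
      have a2 : a 2 = 0 := by rw [h1] at d1; linear_combination d1
      funext i
      fin_cases i
      · exact a0
      · exact h1
      · exact a2
    · right
      have h1' : a 1 = 1 := by linear_combination h1
      have a2 : a 2 = 0 := by rw [h1'] at d1; linear_combination -d1
      funext i
      fin_cases i
      · simpa [e] using a0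
      · simpa [e] using h1'
      · simpa [e] using a2
  · rintro (rfl | rfl)
    · refine ⟨by rw [eval_P]; simp, fun i => ?_⟩
      fin_cases i
      · show eval 0 (pderiv 0 P) = 0
        rw [eval_d0]; simp
      · show eval 0 (pderiv 1 P) = 0
        rw [eval_d1]; simp
      · show eval 0 (pderiv 2 P) = 0
        rw [eval_d2]; simp
    · refine ⟨by rw [eval_P]; simp [e], fun i => ?_⟩
      fin_cases i
      · show eval e (pderiv 0 P) = 0
        rw [eval_d0]; simp [e]
      · show eval e (pderiv 1 P) = 0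
        rw [eval_d1]; simp [e]
      · show eval e (pderiv 2 P) = 0
        rw [eval_d2]; simp [e]

lemma sing_set : {a | IsSingularPt P a} = {0, e} := by
  ext a
  simp [sing_P]

lemma e_ne : (0 : Fin 3 → ℂ) ≠ e := by
  intro h
  have := congrFun h 1
  simp [e] at this

lemma isolated_P (a : Fin 3 → ℂ) (h : IsSingularPt P a) : IsIsolatedSingularPt P a := by
  have hfin : ({a | IsSingularPt P a} \ {a}).Finite := by
    rw [sing_set]
    exact (Set.toFinite _).subset Set.sdiff_subset
  refine ⟨h, _, hfin.isClosed.isOpen_compl.mem_nhds (by simp), ?_⟩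
  intro b hb hba hsb
  exact hb ⟨hsb, by simpa using hba⟩

/-! irreducibility -/

lemma irr_X1 : Irreducible (X 1 : MvPolynomial (Fin 3) ℂ) :=
  (MvPolynomial.X_prime).irreducible

lemma irr_X1' : Irreducible (X 1 - 1 : MvPolynomial (Fin 3) ℂ) := by
  have hd : (X 1 - 1 : MvPolynomial (Fin 3) ℂ).totalDegree = 1 := by
    have h : (X 1 - 1 : MvPolynomial (Fin 3) ℂ) = X 1 + C (-1) := by simp [sub_eq_add_neg]
    rw [h, totalDegree_add_eq_left_of_totalDegree_lt]
    · simp
    · simp
  apply irreducible_of_totalDegree_eq_one hd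
  intro x hx
  have h1 := hx (Finsupp.single 1 1)
  have h2 : coeff (Finsupp.single 1 1) (X 1 - 1 : MvPolynomial (Fin 3) ℂ) = 1 := by
    have hne : ¬ ((0 : Fin 3 →₀ ℕ) = Finsupp.single 1 1) := by
      intro h
      have := congrArg (fun g : Fin 3 →₀ ℕ => g 1) h
      simp at this
    rw [coeff_sub, coeff_X, if_pos rfl, coeff_one, if_neg hne, sub_zero]
  rw [h2] at h1
  exact isUnit_of_dvd_one h1

lemma relPrime : IsRelPrime (-(X 1 * (X 1 - 1)) : MvPolynomial (Fin 3) ℂ) (X 0 ^ 2) := by
  rw [IsRelPrime.neg_left_iff]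
  apply IsRelPrime.mul_left
  · rw [irr_X1.isRelPrime_iff_not_dvd]
    rintro ⟨q, hq⟩
    have := congrArg (eval (![1, 0, 0] : Fin 3 → ℂ)) hq
    simp at this
  · rw [irr_X1'.isRelPrime_iff_not_dvd]
    rintro ⟨q, hq⟩
    have := congrArg (eval (![1, 1, 0] : Fin 3 → ℂ)) hq
    simp at this

lemma irreducible_P : Irreducible P := by
  classical
  have h : P = -(X 1 * (X 1 - 1)) * X 2 + X 0 ^ 2 := by rw [P]; ring
  rw [h]
  apply irreducible_mul_X_add
  · exact neg_ne_zero.mpr (mul_ne_zero irr_X1.ne_zero irr_X1'.ne_zero)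
  · rw [vars_neg]
    intro h
    have h1 := vars_mul _ _ h
    rw [Finset.mem_union, vars_X, Finset.mem_singleton] at h1
    rcases h1 with h1 | h1
    · exact absurd h1 (by decide)
    · have h2 := vars_sub_subset _ h1
      rw [Finset.mem_union, vars_X, vars_one, Finset.mem_singleton] at h2
      rcases h2 with h2 | h2
      · exact absurd h2 (by decide)
      · simp at h2
  · intro h
    have h2 := vars_pow _ _ h
    rw [vars_X, Finset.mem_singleton] at h2
    exact absurd h2 (by decide)
  · exact relPrime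

/-! contractibility -/

/-- the hypersurface -/
abbrev Z : Type := {x : Fin 3 → ℂ // eval x P = 0}

/-- the scaled point `(t * x, y, t ^ 2 * z)` -/
def sc (t : ℂ) (x : Fin 3 → ℂ) : Fin 3 → ℂ := ![t * x 0, x 1, t ^ 2 * x 2]

lemma sc_mem (t : ℂ) (x : Fin 3 → ℂ) (hx : eval x P = 0) : eval (sc t x) P = 0 := by
  rw [eval_P] at hx ⊢
  simp only [sc, Matrix.cons_val]
  linear_combination t ^ 2 * hx

lemma sc_one (x : Fin 3 → ℂ) : sc 1 x = x := by
  funext i
  fin_cases i <;> simp [sc]

/-- the point `(0, s * y, 0)` -/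
def li (s : ℂ) (x : Fin 3 → ℂ) : Fin 3 → ℂ := ![0, s * x 1, 0]

lemma li_mem (t : ℂ) (x : Fin 3 → ℂ) : eval (li t x) P = 0 := by
  rw [eval_P]
  simp [li]

lemma sc_zero (x : Fin 3 → ℂ) : sc 0 x = li 1 x := by
  funext i
  fin_cases i <;> simp [sc, li]

lemma li_zero (x : Fin 3 → ℂ) : li 0 x = 0 := by
  funext i
  fin_cases i <;> simp [li]

lemma continuous_sc : Continuous fun q : ℂ × (Fin 3 → ℂ) => sc q.1 q.2 := by
  refine continuous_pi fun i => ?_
  fin_cases i <;> simp [sc] <;> fun_prop

lemma continuous_li : Continuous fun q : ℂ × (Fin 3 → ℂ) => li q.1 q.2 := by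
  refine continuous_pi fun i => ?_
  fin_cases i <;> simp [li] <;> fun_prop

/-- the projection to the line of points `(0, y, 0)` -/
def prLine : C(Z, Z) where
  toFun x := ⟨li 1 x.1, li_mem _ _⟩
  continuous_toFun := by
    apply Continuous.subtype_mk
    exact continuous_li.comp (by fun_prop : Continuous fun x : Z => ((1 : ℂ), x.1))

/-- the origin -/
def orig : Z :=
  ⟨0, by rw [← li_zero (0 : Fin 3 → ℂ)]; exact li_mem _ _⟩

/-- the affine parameter `1 - t` -/
def par (t : unitInterval) : ℂ := 1 - ((t : ℝ) : ℂ)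

lemma par_zero : par 0 = 1 := by simp [par]
lemma par_one : par 1 = 0 := by simp [par]
lemma continuous_par : Continuous par := by unfold par; fun_prop

/-- first stage of the contraction -/
def H1 (q : unitInterval × Z) : Z := ⟨sc (par q.1) q.2.1, sc_mem _ _ q.2.2⟩

/-- second stage of the contraction -/
def H2 (q : unitInterval × Z) : Z := ⟨li (par q.1) q.2.1, li_mem _ _⟩

lemma continuous_par_pair :
    Continuous fun q : unitInterval × Z => (par q.1, (q.2.1 : Fin 3 → ℂ)) :=
  (continuous_par.comp continuous_fst).prodMk (continuous_subtype_val.comp continuous_snd)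

lemma continuous_H1 : Continuous H1 := by
  have h : Continuous fun q : unitInterval × Z => (sc (par q.1) q.2.1 : Fin 3 → ℂ) :=
    Continuous.comp (g := fun q : ℂ × (Fin 3 → ℂ) => sc q.1 q.2)
      (f := fun q : unitInterval × Z => (par q.1, (q.2.1 : Fin 3 → ℂ)))
      continuous_sc continuous_par_pair
  exact h.subtype_mk _

lemma continuous_H2 : Continuous H2 := by
  have h : Continuous fun q : unitInterval × Z => (li (par q.1) q.2.1 : Fin 3 → ℂ) :=
    Continuous.comp (g := fun q : ℂ × (Fin 3 → ℂ) => li q.1 q.2)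
      (f := fun q : unitInterval × Z => (par q.1, (q.2.1 : Fin 3 → ℂ)))
      continuous_li continuous_par_pair
  exact h.subtype_mk _

lemma H1_zero (x : Z) : H1 (0, x) = x := by
  apply Subtype.ext
  simp only [H1, par_zero, sc_one]

lemma H1_one (x : Z) : H1 (1, x) = prLine x := by
  apply Subtype.ext
  simp only [H1, par_one, sc_zero, prLine, ContinuousMap.coe_mk]

lemma H2_zero (x : Z) : H2 (0, x) = prLine x := by
  apply Subtype.ext
  simp only [H2, par_zero, prLine, ContinuousMap.coe_mk]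

lemma H2_one (x : Z) : H2 (1, x) = orig := by
  apply Subtype.ext
  simp only [H2, par_one, li_zero, orig]

lemma contractible_P : ContractibleSpace {x : Fin 3 → ℂ // eval x P = 0} := by
  rw [contractible_iff_id_nullhomotopic]
  have h1 : (ContinuousMap.id Z).Homotopic prLine :=
    ⟨⟨⟨H1, continuous_H1⟩, H1_zero, H1_one⟩⟩
  have h2 : prLine.Homotopic (ContinuousMap.const Z orig) :=
    ⟨⟨⟨H2, continuous_H2⟩, H2_zero, H2_one⟩⟩
  exact ⟨orig, h1.trans h2⟩

lemma not_qh (Φ : MvPolynomial (Fin 3) ℂ ≃ₐ[ℂ] MvPolynomial (Fin 3) ℂ) :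
    ¬ IsQuasihomogeneous (Φ P) := by
  intro hq
  have hinj : Function.Injective (pts Φ) := by
    apply Function.LeftInverse.injective (g := pts Φ.symm)
    intro a
    exact pts_symm Φ.symm a
  have hset : {b | IsSingularPt (Φ P) b} = pts Φ ⁻¹' {0, e} := by
    ext b
    have := sing_iff Φ P b
    rw [sing_P] at this
    simpa using this
  have hfin : {b | IsSingularPt (Φ P) b}.Finite := by
    rw [hset]
    exact (Set.toFinite _).preimage hinj.injOn
  obtain ⟨a, ha, hs⟩ : ∃ a, a ≠ 0 ∧ IsSingularPt (Φ P) a := by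
    have h0 : IsSingularPt (Φ P) (pts Φ.symm 0) := by
      rw [sing_iff, pts_symm, sing_P]; exact Or.inl rfl
    have h1 : IsSingularPt (Φ P) (pts Φ.symm e) := by
      rw [sing_iff, pts_symm, sing_P]; exact Or.inr rfl
    by_cases hz : pts Φ.symm 0 = 0
    · refine ⟨_, ?_, h1⟩
      intro hz1
      have h2 := congrArg (pts Φ) (hz.trans hz1.symm)
      rw [pts_symm, pts_symm] at h2
      exact e_ne h2
    · exact ⟨_, hz, h0⟩
  exact qh_sing hq a ha hs hfin

end

/-- The surface `x ^ 2 = y * (y - 1) * z` in complex 3-space is irreducible and contractible and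
has an isolated singular point (in fact exactly two singular points, both isolated), and its
equation is not carried to a quasihomogeneous polynomial by any polynomial automorphism. -/
theorem result : ∃ p : MvPolynomial (Fin 3) ℂ,
    p = X 0 ^ 2 - X 1 * (X 1 - 1) * X 2 ∧
    Irreducible p ∧
    ContractibleSpace {x : Fin 3 → ℂ // eval x p = 0} ∧
    (∃ a, IsIsolatedSingularPt p a) ∧
    {a | IsSingularPt p a}.ncard = 2 ∧
    (∀ a, IsSingularPt p a → IsIsolatedSingularPt p a) ∧
    ∀ Φ : MvPolynomial (Fin 3) ℂ ≃ₐ[ℂ] MvPolynomial (Fin 3) ℂ, ¬ IsQuasihomogeneous (Φ p) := by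
  refine ⟨P, rfl, irreducible_P, contractible_P, ⟨0, isolated_P 0 ?_⟩, ?_, isolated_P, not_qh⟩
  · rw [sing_P]; exact Or.inl rfl
  · rw [sing_set, Set.ncard_pair e_ne]

end Pool.Agent.Results.MP_c4712b_ag.NotQuasihomogeneous3
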